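import Pool.Agent.Helper6_ando.Main

/-!
Every cubic graph of girth at least five has a bisection with isomorphic halves.
-/

namespace Pool.Agent.Results.MP_4042d8_co.GirthFive

open Pool.Agent.Helper6_ando

lemma noTri_of_egirth {V : Type} {G : SimpleGraph V} (h : 5 ≤ G.egirth) : NoTri G := by
  classical
  intro a b c hab hbc hac
  rw [SimpleGraph.le_egirth] at h
  have hw := h a (SimpleGraph.Walk.cons hab (SimpleGraph.Walk.cons hbc
    (SimpleGraph.Walk.cons hac.symm SimpleGraph.Walk.nil))) (by
      simp [SimpleGraph.Walk.isCycle_def, SimpleGraph.Walk.isTrail_def, hab.ne, hab.ne', hbc.ne,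
        hbc.ne', hac.ne, hac.ne'])
  simp at hw
  norm_num at hw

lemma noQuad_of_egirth {V : Type} {G : SimpleGraph V} (h : 5 ≤ G.egirth) : NoQuad G := by
  classical
  intro a b c d hac hbd hab hbc hcd hda
  rw [SimpleGraph.le_egirth] at h
  have hw := h a (SimpleGraph.Walk.cons hab (SimpleGraph.Walk.cons hbc
    (SimpleGraph.Walk.cons hcd (SimpleGraph.Walk.cons hda SimpleGraph.Walk.nil)))) (by
      simp [SimpleGraph.Walk.isCycle_def, SimpleGraph.Walk.isTrail_def, hab.ne, hab.ne', hbc.ne,
        hbc.ne', hcd.ne, hcd.ne', hda.ne, hda.ne', hac, hac.symm, hbd, hbd.symm])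
  simp at hw
  norm_num at hw

/-- Every finite cubic graph of girth at least five has a vertex set `B` containing exactly half
of the vertices such that the subgraph induced on `B` is isomorphic to the subgraph induced on
its complement. -/
theorem result : ∀ (V : Type) [Fintype V] [DecidableEq V] (G : SimpleGraph V)
    [DecidableRel G.Adj], G.IsRegularOfDegree 3 → 5 ≤ G.egirth →
    ∃ B : Finset V, 2 * B.card = Fintype.card V ∧
      Nonempty (SimpleGraph.Iso (G.induce (↑B : Set V)) (G.induce ((↑B : Set V)ᶜ))) := by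
  intro V _ _ G _ hG hg
  obtain ⟨c, hc⟩ := main (Fintype.card V) V G rfl hG (noTri_of_egirth hg) (noQuad_of_egirth hg)
  exact iso_of_Bal hc

end Pool.Agent.Results.MP_4042d8_co.GirthFive
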